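import Pool.Agent.Q107.IRG.Defs

/-!
# Odd cycles as IR-graphs

For odd `n ≥ 17` let `G` be the graph on `ZMod n` in which `x ≠ y` are adjacent unless `x - y` is
one of `1, -1, 5, -5`. Its IR-sets are the sets `{i, i + 2, i + 4}`, and its IR-graph is the cycle
`{0, 2, 4}, {2, 4, 6}, {4, 6, 8}, ...` of length `n`.
-/

set_option autoImplicit false

namespace Q107.IRG

open Finset

variable {n : ℕ}

/-- non-adjacency -/
def Rel (x y : ZMod n) : Prop := x - y = 1 ∨ x - y = -1 ∨ x - y = 5 ∨ x - y = -5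

lemma Rel.symm {x y : ZMod n} (h : Rel x y) : Rel y x := by
  unfold Rel at *
  rcases h with h | h | h | h
  · right; left; rw [← h]; ring
  · left; rw [← neg_sub, h]; ring
  · right; right; right; rw [← h]; ring
  · right; right; left; rw [← neg_sub, h]; ring

/-- the graph -/
def cg (n : ℕ) : SimpleGraph (ZMod n) where
  Adj x y := x ≠ y ∧ ¬ Rel x y
  symm := ⟨fun _ _ h => ⟨h.1.symm, fun h' => h.2 h'.symm⟩⟩
  loopless := ⟨fun _ h => h.1 rfl⟩

/-- small integers are not divisible by `n` -/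
lemma int_ne (hn : 17 ≤ n) {a b : ℤ} (h : a ≠ b) (h1 : a - b < 17) (h2 : -17 < a - b) :
    (a : ZMod n) ≠ (b : ZMod n) := by
  intro hab
  rw [ZMod.intCast_eq_intCast_iff_dvd_sub] at hab
  obtain ⟨k, hk⟩ := hab
  have hn' : (17 : ℤ) ≤ n := by exact_mod_cast hn
  rcases lt_trichotomy k 0 with hk0 | hk0 | hk0
  · nlinarith
  · rw [hk0] at hk
    apply h
    linarith
  · nlinarith

lemma int_ne_zero (hn : 17 ≤ n) {a : ℤ} (h : a ≠ 0) (h1 : a < 17) (h2 : -17 < a) :
    (a : ZMod n) ≠ 0 := by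
  have := int_ne hn h (by omega) (by omega)
  simpa using this

/-- the four differences -/
def S4 : Finset ℤ := {-5, -1, 1, 5}

lemma rel_iff {x y : ZMod n} : Rel x y ↔ ∃ d ∈ S4, x - y = (d : ZMod n) := by
  unfold Rel S4
  simp only [mem_insert, mem_singleton, exists_eq_or_imp, exists_eq_left]
  push_cast
  tauto

lemma not_rel_int (hn : 17 ≤ n) {x y : ZMod n} {k : ℤ} (h : x - y = (k : ZMod n))
    (hk : k ∉ S4) (h1 : k < 12) (h2 : -12 < k) : ¬ Rel x y := by
  rw [rel_iff]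
  rintro ⟨d, hd, hd2⟩
  rw [h] at hd2
  have hd3 : -5 ≤ d ∧ d ≤ 5 := by
    unfold S4 at hd
    simp only [mem_insert, mem_singleton] at hd
    omega
  exact int_ne hn (a := k) (b := d) (fun h' => hk (by rw [h']; exact hd)) (by omega) (by omega) hd2

lemma not_rel_self (hn : 17 ≤ n) (x : ZMod n) : ¬ Rel x x :=
  not_rel_int hn (k := 0) (by simp) (by decide) (by norm_num) (by norm_num)

lemma nbr_iff (hn : 17 ≤ n) {v w : ZMod n} : (w = v ∨ (cg n).Adj v w) ↔ ¬ Rel v w := by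
  constructor
  · rintro (rfl | h)
    · exact not_rel_self hn _
    · exact h.2
  · intro h
    by_cases hvw : w = v
    · exact Or.inl hvw
    · exact Or.inr ⟨fun h' => hvw h'.symm, h⟩

lemma irr_iff (hn : 17 ≤ n) {D : Finset (ZMod n)} :
    IsIrredundant (cg n) D ↔ ∀ v ∈ D, ∃ w, ¬ Rel v w ∧ ∀ u ∈ D, u ≠ v → Rel u w := by
  unfold IsIrredundant
  refine forall_congr' fun v => forall_congr' fun _ => exists_congr fun w => ?_
  rw [nbr_iff hn]
  refine and_congr_right fun _ => forall_congr' fun u => forall_congr' fun _ =>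
    forall_congr' fun _ => ?_
  rw [nbr_iff hn, not_not]

lemma irr_mono {V : Type} {G : SimpleGraph V} {D D' : Finset V} (h : IsIrredundant G D)
    (hs : D' ⊆ D) : IsIrredundant G D' := by
  intro v hv
  obtain ⟨w, h1, h2⟩ := h v (hs hv)
  exact ⟨w, h1, fun u hu => h2 u (hs hu)⟩

/-- the sets `{i, i + 2, i + 4}` -/
def X (i : ZMod n) : Finset (ZMod n) := {i, i + 2, i + 4}

lemma mem_X {i x : ZMod n} : x ∈ X i ↔ x = i ∨ x = i + 2 ∨ x = i + 4 := by
  unfold X
  simp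

/-- `a + k ≠ a + l` for small distinct integers -/
lemma add_ne (hn : 17 ≤ n) (a : ZMod n) (k l : ℤ) (h : k ≠ l) (h1 : k - l < 17)
    (h2 : -17 < k - l) : a + (k : ZMod n) ≠ a + (l : ZMod n) := by
  intro h'
  exact int_ne hn h h1 h2 (add_left_cancel h')

lemma X_card (hn : 17 ≤ n) (i : ZMod n) : (X i).card = 3 := by
  have h1 := add_ne hn i 0 2 (by norm_num) (by norm_num) (by norm_num)
  have h2 := add_ne hn i 0 4 (by norm_num) (by norm_num) (by norm_num)
  have h3 := add_ne hn i 2 4 (by norm_num) (by norm_num) (by norm_num)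
  push_cast at h1 h2 h3
  rw [add_zero] at h1 h2
  unfold X
  rw [card_insert_of_notMem, card_insert_of_notMem, card_singleton]
  · rw [mem_singleton]
    exact h3
  · rw [mem_insert, mem_singleton]
    rintro (h | h)
    · exact h1 h
    · exact h2 h

lemma X_irr (hn : 17 ≤ n) (i : ZMod n) : IsIrredundant (cg n) (X i) := by
  rw [irr_iff hn]
  intro v hv
  rw [mem_X] at hv
  rcases hv with rfl | rfl | rfl
  · refine ⟨v + 3, not_rel_int hn (k := -3) (by push_cast; ring) (by decide) (by norm_num)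
      (by norm_num), ?_⟩
    intro u hu hne
    rw [mem_X] at hu
    rcases hu with rfl | rfl | rfl
    · exact absurd rfl hne
    · right; left; ring
    · left; ring
  · refine ⟨i - 1, not_rel_int hn (k := 3) (by push_cast; ring) (by decide) (by norm_num)
      (by norm_num), ?_⟩
    intro u hu hne
    rw [mem_X] at hu
    rcases hu with rfl | rfl | rfl
    · left; ring
    · exact absurd rfl hne
    · right; right; left; ring
  · refine ⟨i + 1, not_rel_int hn (k := 3) (by push_cast; ring) (by decide) (by norm_num)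
      (by norm_num), ?_⟩
    intro u hu hne
    rw [mem_X] at hu
    rcases hu with rfl | rfl | rfl
    · right; left; ring
    · left; ring
    · exact absurd rfl hne

lemma fin_check : ∀ d1 ∈ S4, ∀ d2 ∈ S4, ∀ d3 ∈ S4, ∀ d4 ∈ S4, ∀ d5 ∈ S4, ∀ d6 ∈ S4,
    (d2 - d1) + (d3 - d4) + (d6 - d5) = 0 → d5 ≠ d6 → d3 ≠ d4 → d1 ≠ d2 →
    d1 + d5 - d6 ∉ S4 → d3 + d6 - d5 ∉ S4 → d5 + d4 - d3 ∉ S4 →
    (d5 - d6, d3 - d4) ∈
      ({(2, 4), (4, 2), (2, -2), (-2, 2), (-2, -4), (-4, -2)} : Finset (ℤ × ℤ)) := by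
  decide +kernel

lemma S4_odd : ∀ d ∈ S4, ∃ e : ℤ, d = 2 * e + 1 ∧ -3 ≤ e ∧ e ≤ 2 := by
  intro d hd
  unfold S4 at hd
  simp only [mem_insert, mem_singleton] at hd
  rcases hd with rfl | rfl | rfl | rfl
  · exact ⟨-3, by norm_num, by norm_num, by norm_num⟩
  · exact ⟨-1, by norm_num, by norm_num, by norm_num⟩
  · exact ⟨0, by norm_num, by norm_num, by norm_num⟩
  · exact ⟨2, by norm_num, by norm_num, by norm_num⟩

/-- an irredundant triple is one of the sets `X i` -/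
lemma triple (hn : 17 ≤ n) (hodd : Odd n) {D : Finset (ZMod n)} (hD : IsIrredundant (cg n) D)
    (hc : D.card = 3) : ∃ i, D = X i := by
  classical
  obtain ⟨a, b, c, hab, hac, hbc, rfl⟩ := card_eq_three.1 hc
  rw [irr_iff hn] at hD
  obtain ⟨wa, ha1, ha2⟩ := hD a (by simp)
  obtain ⟨wb, hb1, hb2⟩ := hD b (by simp)
  obtain ⟨wc, hc1, hc2⟩ := hD c (by simp)
  obtain ⟨d1, hd1, e1⟩ := rel_iff.1 (ha2 b (by simp) hab.symm).symm
  obtain ⟨d2, hd2, e2⟩ := rel_iff.1 (ha2 c (by simp) hac.symm).symm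
  obtain ⟨d3, hd3, e3⟩ := rel_iff.1 (hb2 a (by simp) hab).symm
  obtain ⟨d4, hd4, e4⟩ := rel_iff.1 (hb2 c (by simp) hbc.symm).symm
  obtain ⟨d5, hd5, e5⟩ := rel_iff.1 (hc2 a (by simp) hac).symm
  obtain ⟨d6, hd6, e6⟩ := rel_iff.1 (hc2 b (by simp) hbc).symm
  -- the differences of `a`, `b`, `c`
  have hba : b - a = ((d5 - d6 : ℤ) : ZMod n) := by
    push_cast
    rw [← e5, ← e6]
    ring
  have hca : c - a = ((d3 - d4 : ℤ) : ZMod n) := by
    push_cast
    rw [← e3, ← e4]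
    ring
  have hbc' : b - c = ((d2 - d1 : ℤ) : ZMod n) := by
    push_cast
    rw [← e1, ← e2]
    ring
  have hsum : (((d2 - d1) + (d3 - d4) + (d6 - d5) : ℤ) : ZMod n) = 0 := by
    push_cast
    rw [← e1, ← e2, ← e3, ← e4, ← e5, ← e6]
    ring
  have hzero : (d2 - d1) + (d3 - d4) + (d6 - d5) = 0 := by
    obtain ⟨f1, g1, _, _⟩ := S4_odd d1 hd1
    obtain ⟨f2, g2, _, _⟩ := S4_odd d2 hd2
    obtain ⟨f3, g3, _, _⟩ := S4_odd d3 hd3
    obtain ⟨f4, g4, _, _⟩ := S4_odd d4 hd4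
    obtain ⟨f5, g5, _, _⟩ := S4_odd d5 hd5
    obtain ⟨f6, g6, _, _⟩ := S4_odd d6 hd6
    rw [ZMod.intCast_zmod_eq_zero_iff_dvd] at hsum
    have h2 : (n : ℤ) ∣ 2 * ((f2 - f1) + (f3 - f4) + (f6 - f5)) := by
      have : (d2 - d1) + (d3 - d4) + (d6 - d5) = 2 * ((f2 - f1) + (f3 - f4) + (f6 - f5)) := by
        rw [g1, g2, g3, g4, g5, g6]
        ring
      rwa [this] at hsum
    have hcop : IsCoprime (n : ℤ) 2 := by
      rw [Int.isCoprime_iff_gcd_eq_one]
      have : Nat.Coprime n 2 := Nat.coprime_two_right.2 hodd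
      exact_mod_cast this
    have h3 := hcop.dvd_of_dvd_mul_left h2
    have h4 : (f2 - f1) + (f3 - f4) + (f6 - f5) = 0 := by
      apply Int.eq_zero_of_abs_lt_dvd h3
      have hn' : (17 : ℤ) ≤ n := by exact_mod_cast hn
      rw [abs_lt]
      constructor <;> omega
    rw [g1, g2, g3, g4, g5, g6]
    linarith
  have hnotmem : ∀ {x y : ZMod n} {k : ℤ}, ¬ Rel x y → x - y = (k : ZMod n) → k ∉ S4 :=
    fun h1 h2 h3 => h1 (rel_iff.2 ⟨_, h3, h2⟩)
  have k1 : d1 + d5 - d6 ∉ S4 := by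
    apply hnotmem (fun h => ha1 h.symm)
    push_cast
    rw [← e1, ← e5, ← e6]
    ring
  have k2 : d3 + d6 - d5 ∉ S4 := by
    apply hnotmem (fun h => hb1 h.symm)
    push_cast
    rw [← e3, ← e5, ← e6]
    ring
  have k3 : d5 + d4 - d3 ∉ S4 := by
    apply hnotmem (fun h => hc1 h.symm)
    push_cast
    rw [← e5, ← e3, ← e4]
    ring
  have m1 : d5 ≠ d6 := by
    rintro rfl
    rw [sub_self, Int.cast_zero, sub_eq_zero] at hba
    exact hab hba.symm
  have m2 : d3 ≠ d4 := by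
    rintro rfl
    rw [sub_self, Int.cast_zero, sub_eq_zero] at hca
    exact hac hca.symm
  have m3 : d1 ≠ d2 := by
    rintro rfl
    rw [sub_self, Int.cast_zero, sub_eq_zero] at hbc'
    exact hbc hbc'
  have hfin := fin_check d1 hd1 d2 hd2 d3 hd3 d4 hd4 d5 hd5 d6 hd6 hzero m1 m2 m3 k1 k2 k3
  have hb' : b = a + ((d5 - d6 : ℤ) : ZMod n) := by rw [← hba]; ring
  have hc' : c = a + ((d3 - d4 : ℤ) : ZMod n) := by rw [← hca]; ring
  simp only [mem_insert, mem_singleton, Prod.mk.injEq] at hfin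
  have t3 : a + -2 = a - 2 := by ring
  have t4 : a + -4 = a - 4 := by ring
  rcases hfin with ⟨h1, h2⟩ | ⟨h1, h2⟩ | ⟨h1, h2⟩ | ⟨h1, h2⟩ | ⟨h1, h2⟩ | ⟨h1, h2⟩
  all_goals
    rw [h1] at hb'
    rw [h2] at hc'
    push_cast at hb' hc'
  · refine ⟨a, ?_⟩
    rw [hb', hc']
    rfl
  · refine ⟨a, ?_⟩
    rw [hb', hc', pair_comm]
    rfl
  · refine ⟨a - 2, ?_⟩
    have t1 : a - 2 + 2 = a := by ring
    have t2 : a - 2 + 4 = a + 2 := by ring
    unfold X
    rw [hb', hc', t1, t2, t3, pair_comm (a + 2), Finset.insert_comm]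
  · refine ⟨a - 2, ?_⟩
    have t1 : a - 2 + 2 = a := by ring
    have t2 : a - 2 + 4 = a + 2 := by ring
    unfold X
    rw [hb', hc', t1, t2, t3, Finset.insert_comm]
  · refine ⟨a - 4, ?_⟩
    have t1 : a - 4 + 2 = a - 2 := by ring
    have t2 : a - 4 + 4 = a := by ring
    unfold X
    rw [hb', hc', t1, t2, t3, t4, pair_comm (a - 2) (a - 4), Finset.insert_comm, pair_comm a (a - 2)]
  · refine ⟨a - 4, ?_⟩
    have t1 : a - 4 + 2 = a - 2 := by ring
    have t2 : a - 4 + 4 = a := by ring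
    unfold X
    rw [hb', hc', t1, t2, t3, t4, Finset.insert_comm, pair_comm a (a - 2)]

end Q107.IRG
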