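import Pool.Agent.Q107.IRG.Cycle

/-!
# Odd cycles as IR-graphs: the IR-graph
-/

set_option autoImplicit false

namespace Q107.IRG

open Finset

variable {n : ℕ}

lemma small_ne (hn : 17 ≤ n) {a b : ZMod n} {k : ℤ} (h : a = b + (k : ZMod n)) (hk : k ≠ 0)
    (h1 : k < 17) (h2 : -17 < k) : a ≠ b := by
  intro hab
  rw [hab] at h
  have : (k : ZMod n) = 0 := by
    have h3 : b + (k : ZMod n) = b + 0 := by rw [add_zero]; exact h.symm
    exact add_left_cancel h3
  exact int_ne_zero hn hk h1 h2 this

/-- if `i` and `i + 2` are in `X j` then `j = i` or `j = i - 2` -/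
lemma two_in (hn : 17 ≤ n) {i j : ZMod n} (h1 : i ∈ X j) (h2 : i + 2 ∈ X j) :
    j = i ∨ j = i - 2 := by
  rw [mem_X] at h1
  rcases h1 with h | h | h
  · exact Or.inl h.symm
  · right
    rw [h]
    ring
  · exfalso
    rw [mem_X, h] at h2
    rcases h2 with h3 | h3 | h3
    · exact small_ne hn (k := 6) (b := j) (by push_cast; ring) (by norm_num) (by norm_num)
        (by norm_num) h3
    · exact small_ne hn (k := 4) (b := j + 2) (by push_cast; ring) (by norm_num) (by norm_num)
        (by norm_num) h3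
    · exact small_ne hn (k := 2) (b := j + 4) (by push_cast; ring) (by norm_num) (by norm_num)
        (by norm_num) h3

/-- if `i` and `i + 4` are in `X j` then `j = i` -/
lemma four_in (hn : 17 ≤ n) {i j : ZMod n} (h1 : i ∈ X j) (h2 : i + 4 ∈ X j) : j = i := by
  rw [mem_X] at h1
  rcases h1 with h | h | h
  · exact h.symm
  · exfalso
    rw [mem_X, h] at h2
    rcases h2 with h3 | h3 | h3
    · exact small_ne hn (k := 6) (b := j) (by push_cast; ring) (by norm_num) (by norm_num)
        (by norm_num) h3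
    · exact small_ne hn (k := 4) (b := j + 2) (by push_cast; ring) (by norm_num) (by norm_num)
        (by norm_num) h3
    · exact small_ne hn (k := 2) (b := j + 4) (by push_cast; ring) (by norm_num) (by norm_num)
        (by norm_num) h3
  · exfalso
    rw [mem_X, h] at h2
    rcases h2 with h3 | h3 | h3
    · exact small_ne hn (k := 8) (b := j) (by push_cast; ring) (by norm_num) (by norm_num)
        (by norm_num) h3
    · exact small_ne hn (k := 6) (b := j + 2) (by push_cast; ring) (by norm_num) (by norm_num)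
        (by norm_num) h3
    · exact small_ne hn (k := 4) (b := j + 4) (by push_cast; ring) (by norm_num) (by norm_num)
        (by norm_num) h3

lemma X_inj (hn : 17 ≤ n) {i j : ZMod n} (h : X i = X j) : i = j := by
  have h1 : i ∈ X j := h ▸ mem_X.2 (Or.inl rfl)
  have h2 : i + 4 ∈ X j := h ▸ mem_X.2 (Or.inr (Or.inr rfl))
  exact (four_in hn h1 h2).symm

lemma card_le (hn : 17 ≤ n) (hodd : Odd n) {D : Finset (ZMod n)}
    (hD : IsIrredundant (cg n) D) : D.card ≤ 3 := by
  classical
  by_contra hcon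
  obtain ⟨E, hE, hEc⟩ := exists_subset_card_eq (show 4 ≤ D.card by omega)
  have hEi := irr_mono hD hE
  obtain ⟨x, hx⟩ : E.Nonempty := by
    rw [← card_pos]
    omega
  have herase : ∀ y ∈ E, ∃ i, E.erase y = X i := fun y hy =>
    triple hn hodd (irr_mono hEi (erase_subset _ _)) (by rw [card_erase_of_mem hy, hEc])
  obtain ⟨i, hi⟩ := herase x hx
  have hin : ∀ y, y ∈ X i → y ∈ E := fun y hy => by
    rw [← hi] at hy
    exact mem_of_mem_erase hy
  have hxX : x ∉ X i := by
    rw [← hi]
    exact notMem_erase x E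
  have m0 : i ∈ X i := mem_X.2 (Or.inl rfl)
  have m2 : i + 2 ∈ X i := mem_X.2 (Or.inr (Or.inl rfl))
  have m4 : i + 4 ∈ X i := mem_X.2 (Or.inr (Or.inr rfl))
  have n02 : i ≠ i + 2 := small_ne hn (k := -2) (by push_cast; ring) (by norm_num) (by norm_num)
    (by norm_num)
  have n04 : i ≠ i + 4 := small_ne hn (k := -4) (by push_cast; ring) (by norm_num) (by norm_num)
    (by norm_num)
  have n24 : i + 2 ≠ i + 4 := small_ne hn (k := -2) (by push_cast; ring) (by norm_num)
    (by norm_num) (by norm_num)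
  -- remove `i + 4`
  obtain ⟨j, hj⟩ := herase _ (hin _ m4)
  have j0 : i ∈ X j := by rw [← hj]; exact mem_erase.2 ⟨n04, hin _ m0⟩
  have j2 : i + 2 ∈ X j := by rw [← hj]; exact mem_erase.2 ⟨n24, hin _ m2⟩
  have jx : x ∈ X j := by
    rw [← hj]
    exact mem_erase.2 ⟨fun h => hxX (h ▸ m4), hx⟩
  have hx1 : x = i - 2 := by
    rcases two_in hn j0 j2 with h | h
    · rw [h] at jx
      exact absurd jx hxX
    · rw [h, mem_X] at jx
      rcases jx with h1 | h1 | h1
      · exact h1
      · exfalso
        apply hxX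
        rw [h1]
        convert m0 using 1
        ring
      · exfalso
        apply hxX
        rw [h1]
        convert m2 using 1
        ring
  -- remove `i`
  obtain ⟨k, hk⟩ := herase _ (hin _ m0)
  have k2 : i + 2 ∈ X k := by rw [← hk]; exact mem_erase.2 ⟨n02.symm, hin _ m2⟩
  have k4 : i + 2 + 2 ∈ X k := by
    rw [← hk]
    have : i + 2 + 2 = i + 4 := by ring
    rw [this]
    exact mem_erase.2 ⟨n04.symm, hin _ m4⟩
  have kx : x ∈ X k := by
    rw [← hk]
    exact mem_erase.2 ⟨fun h => hxX (h ▸ m0), hx⟩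
  rcases two_in hn k2 k4 with h | h
  · rw [h, mem_X, hx1] at kx
    rcases kx with h1 | h1 | h1
    · exact small_ne hn (k := -4) (by push_cast; ring) (by norm_num) (by norm_num)
        (by norm_num) h1
    · exact small_ne hn (k := -6) (by push_cast; ring) (by norm_num) (by norm_num)
        (by norm_num) h1
    · exact small_ne hn (k := -8) (by push_cast; ring) (by norm_num) (by norm_num)
        (by norm_num) h1
  · have : i + 2 - 2 = i := by ring
    rw [h, this] at kx
    exact hxX kx

lemma IRNum_eq [NeZero n] (hn : 17 ≤ n) (hodd : Odd n) : IRNum (cg n) = 3 := by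
  apply le_antisymm
  · apply csSup_le
    · exact ⟨3, X 0, X_irr hn 0, X_card hn 0⟩
    · rintro k ⟨D, hD, rfl⟩
      exact card_le hn hodd hD
  · apply le_csSup
    · refine ⟨3, ?_⟩
      rintro k ⟨D, hD, rfl⟩
      exact card_le hn hodd hD
    · exact ⟨X 0, X_irr hn 0, X_card hn 0⟩

/-- the IR-set `X i` -/
def XS [NeZero n] (hn : 17 ≤ n) (hodd : Odd n) (i : ZMod n) : IRSet (cg n) :=
  ⟨X i, X_irr hn i, by rw [X_card hn, IRNum_eq hn hodd]⟩

lemma XS_surj [NeZero n] (hn : 17 ≤ n) (hodd : Odd n) (D : IRSet (cg n)) :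
    ∃ i, XS hn hodd i = D := by
  obtain ⟨i, hi⟩ := triple hn hodd D.2.1 (by rw [D.2.2, IRNum_eq hn hodd])
  exact ⟨i, Subtype.ext hi.symm⟩

lemma adj_step [NeZero n] (hn : 17 ≤ n) (hodd : Odd n) (i : ZMod n) :
    (irGraph (cg n)).Adj (XS hn hodd i) (XS hn hodd (i + 2)) := by
  classical
  refine ⟨i, mem_X.2 (Or.inl rfl), i + 6, ?_, ?_, ⟨?_, ?_⟩, ?_⟩
  · change i + 6 ∈ X (i + 2)
    rw [mem_X]
    right; right; ring
  · exact small_ne hn (k := 6) (by push_cast; ring) (by norm_num) (by norm_num) (by norm_num)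
  · exact small_ne hn (k := -6) (by push_cast; ring) (by norm_num) (by norm_num) (by norm_num)
  · exact not_rel_int hn (k := -6) (by push_cast; ring) (by decide) (by norm_num) (by norm_num)
  · change ((X (i + 2) : Finset (ZMod n)) : Set (ZMod n)) =
      (((X i : Finset (ZMod n)) : Set (ZMod n)) \ {i}) ∪ {i + 6}
    ext x
    simp only [Finset.mem_coe, Set.mem_union, Set.mem_sdiff, Set.mem_singleton_iff]
    rw [mem_X, mem_X]
    have n2 : i + 2 ≠ i := small_ne hn (k := 2) (by push_cast; ring) (by norm_num) (by norm_num)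
      (by norm_num)
    have n4 : i + 4 ≠ i := small_ne hn (k := 4) (by push_cast; ring) (by norm_num) (by norm_num)
      (by norm_num)
    have t1 : i + 2 + 2 = i + 4 := by ring
    have t2 : i + 2 + 4 = i + 6 := by ring
    rw [t1, t2]
    constructor
    · rintro (rfl | rfl | rfl)
      · exact Or.inl ⟨Or.inr (Or.inl rfl), n2⟩
      · exact Or.inl ⟨Or.inr (Or.inr rfl), n4⟩
      · exact Or.inr rfl
    · rintro (⟨rfl | rfl | rfl, h1⟩ | rfl)
      · exact absurd rfl h1
      · exact Or.inl rfl
      · exact Or.inr (Or.inl rfl)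
      · exact Or.inr (Or.inr rfl)

lemma adj_iff [NeZero n] (hn : 17 ≤ n) (hodd : Odd n) (i j : ZMod n) :
    (irGraph (cg n)).Adj (XS hn hodd i) (XS hn hodd j) ↔ j = i + 2 ∨ i = j + 2 := by
  classical
  constructor
  · rintro ⟨u, hu, v, hv, hne, _, h⟩
    change u ∈ X i at hu
    have hm : ∀ x, x ∈ X j ↔ (x ∈ X i ∧ x ≠ u) ∨ x = v := slide_mem h
    have hin : ∀ x, x ∈ X i → x ≠ u → x ∈ X j := fun x hx hxu => (hm x).2 (Or.inl ⟨hx, hxu⟩)
    have hij : j ≠ i := by
      rintro rfl
      rcases (hm u).1 hu with h1 | h1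
      · exact h1.2 rfl
      · exact hne h1.symm
    have m0 : i ∈ X i := mem_X.2 (Or.inl rfl)
    have m2 : i + 2 ∈ X i := mem_X.2 (Or.inr (Or.inl rfl))
    have m4 : i + 4 ∈ X i := mem_X.2 (Or.inr (Or.inr rfl))
    have n02 : i ≠ i + 2 := small_ne hn (k := -2) (by push_cast; ring) (by norm_num)
      (by norm_num) (by norm_num)
    have n04 : i ≠ i + 4 := small_ne hn (k := -4) (by push_cast; ring) (by norm_num)
      (by norm_num) (by norm_num)
    have n24 : i + 2 ≠ i + 4 := small_ne hn (k := -2) (by push_cast; ring) (by norm_num)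
      (by norm_num) (by norm_num)
    rw [mem_X] at hu
    rcases hu with rfl | rfl | rfl
    · have h2 := hin _ m2 n02.symm
      have h4 : u + 2 + 2 ∈ X j := by
        have : u + 2 + 2 = u + 4 := by ring
        rw [this]
        exact hin _ m4 n04.symm
      rcases two_in hn h2 h4 with h5 | h5
      · exact Or.inl h5
      · exfalso
        apply hij
        rw [h5]
        ring
    · exact absurd (four_in hn (hin _ m0 n02) (hin _ m4 n24.symm)) hij
    · rcases two_in hn (hin _ m0 n04) (hin _ m2 n24) with h5 | h5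
      · exact absurd h5 hij
      · right
        rw [h5]
        ring
  · rintro (rfl | rfl)
    · exact adj_step hn hodd i
    · exact (adj_step hn hodd j).symm

/-- `2` is invertible modulo the odd number `n` -/
lemma two_cancel (hodd : Odd n) {x : ZMod n} (h : 2 * x = 0) : x = 0 := by
  obtain ⟨m, hm⟩ := hodd
  have h1 : ((n : ℕ) : ZMod n) = 0 := ZMod.natCast_self n
  have h2 : (2 * (m : ZMod n) + 1) = 0 := by
    have h3 : ((2 * m + 1 : ℕ) : ZMod n) = 0 := by rw [← hm]; exact h1
    push_cast at h3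
    exact h3
  calc x = (2 * (m : ZMod n) + 1) * x - m * (2 * x) := by ring
    _ = 0 := by rw [h2, h]; ring

/-- the map `p ↦ X (2 p)` is an isomorphism from the cycle to the IR-graph -/
theorem cycle_iso (k : ℕ) (hn : 17 ≤ k + 2) (hodd : Odd (k + 2)) :
    Nonempty (irGraph (cg (k + 2)) ≃g SimpleGraph.cycleGraph (k + 2)) := by
  let f : ZMod (k + 2) → IRSet (cg (k + 2)) := fun p => XS hn hodd (2 * p)
  have hf : Function.Bijective f := by
    constructor
    · intro p q hpq
      have h1 : X (2 * p) = X (2 * q) := congrArg Subtype.val hpq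
      have h2 := X_inj hn h1
      have h3 : 2 * (p - q) = 0 := by
        rw [mul_sub, h2, sub_self]
      exact sub_eq_zero.1 (two_cancel hodd h3)
    · intro D
      obtain ⟨i, hi⟩ := XS_surj hn hodd D
      obtain ⟨m, hm⟩ := hodd
      refine ⟨-(m : ZMod (k + 2)) * i, ?_⟩
      have h1 : (2 * (m : ZMod (k + 2)) + 1) = 0 := by
        have h2 : ((k + 2 : ℕ) : ZMod (k + 2)) = 0 := ZMod.natCast_self _
        have h3 : ((2 * m + 1 : ℕ) : ZMod (k + 2)) = 0 := by rw [← hm]; exact h2
        push_cast at h3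
        exact h3
      have h4 : 2 * (-(m : ZMod (k + 2)) * i) = i := by
        calc 2 * (-(m : ZMod (k + 2)) * i) = i - (2 * (m : ZMod (k + 2)) + 1) * i := by ring
          _ = i := by rw [h1]; ring
      change XS hn ⟨m, hm⟩ (2 * (-(m : ZMod (k + 2)) * i)) = D
      rw [h4]
      exact hi
  let e : ZMod (k + 2) ≃ IRSet (cg (k + 2)) := Equiv.ofBijective f hf
  refine ⟨(RelIso.symm ⟨e, ?_⟩ : irGraph (cg (k + 2)) ≃g SimpleGraph.cycleGraph (k + 2))⟩
  intro (p : ZMod (k + 2)) (q : ZMod (k + 2))
  change (irGraph (cg (k + 2))).Adj (XS hn hodd (2 * p)) (XS hn hodd (2 * q)) ↔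
    (p - q : ZMod (k + 2)) = 1 ∨ (q - p : ZMod (k + 2)) = 1
  rw [adj_iff hn hodd]
  constructor
  · rintro (h | h)
    · right
      have : 2 * (q - p - 1) = 0 := by
        rw [mul_sub, mul_sub, h]
        ring
      exact sub_eq_zero.1 (two_cancel hodd this)
    · left
      have : 2 * (p - q - 1) = 0 := by
        rw [mul_sub, mul_sub, h]
        ring
      exact sub_eq_zero.1 (two_cancel hodd this)
  · rintro (h | h)
    · right
      have : p = q + 1 := by rw [← h]; ring
      rw [this]
      ring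
    · left
      have : q = p + 1 := by rw [← h]; ring
      rw [this]
      ring

end Q107.IRG
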