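import Mathlib

/-!
# Irredundant sets, the upper irredundance number and the IR-graph
-/

set_option autoImplicit false

namespace Q107.IRG

/-- `D` is irredundant: every `v ∈ D` has a private neighbour `w`, that is, `w` is equal or adjacent
to `v` and is neither equal nor adjacent to any other vertex of `D`. -/
def IsIrredundant {V : Type} (G : SimpleGraph V) (D : Finset V) : Prop :=
  ∀ v ∈ D, ∃ w, (w = v ∨ G.Adj v w) ∧ ∀ u ∈ D, u ≠ v → ¬ (w = u ∨ G.Adj u w)

/-- The upper irredundance number `IR(G)`: the maximum size of an irredundant set. -/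
noncomputable def IRNum {V : Type} [Fintype V] (G : SimpleGraph V) : ℕ :=
  sSup {k | ∃ D : Finset V, IsIrredundant G D ∧ D.card = k}

/-- The `IR(G)`-sets: the irredundant sets of size `IR(G)`. -/
def IRSet {V : Type} [Fintype V] (G : SimpleGraph V) : Type :=
  {D : Finset V // IsIrredundant G D ∧ D.card = IRNum G}

/-- `D' = (D - {u}) ∪ {v}` for some `u ∈ D` and `v ∈ D' - {u}` that are adjacent in `G`. -/
def Slide {V : Type} (G : SimpleGraph V) (D D' : Finset V) : Prop :=
  ∃ u ∈ D, ∃ v ∈ D', v ≠ u ∧ G.Adj u v ∧ (D' : Set V) = ((D : Set V) \ {u}) ∪ {v}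

lemma slide_mem {V : Type} {D D' : Finset V} {u v : V}
    (h : (D' : Set V) = ((D : Set V) \ {u}) ∪ {v}) (x : V) :
    x ∈ D' ↔ (x ∈ D ∧ x ≠ u) ∨ x = v := by
  have h1 : x ∈ (D' : Set V) ↔ x ∈ ((D : Set V) \ {u}) ∪ {v} := by rw [h]
  simpa [or_comm] using h1

lemma Slide.symm {V : Type} {G : SimpleGraph V} {D D' : Finset V} (hc : D.card = D'.card)
    (hs : Slide G D D') : Slide G D' D := by
  classical
  obtain ⟨u, hu, v, hv, hne, hadj, h⟩ := hs
  have hm := slide_mem h
  have hvD : v ∉ D := by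
    intro hvD
    have h1 : D' ⊆ D.erase u := by
      intro x hx
      rw [Finset.mem_erase]
      rcases (hm x).1 hx with h2 | h2
      · exact ⟨h2.2, h2.1⟩
      · rw [h2]
        exact ⟨hne, hvD⟩
    have h2 := Finset.card_le_card h1
    have h3 := Finset.card_erase_lt_of_mem hu
    omega
  refine ⟨v, hv, u, hu, hne.symm, hadj.symm, ?_⟩
  ext x
  simp only [Finset.mem_coe, Set.mem_union, Set.mem_sdiff, Set.mem_singleton_iff]
  rw [hm x]
  constructor
  · intro hx
    by_cases hxu : x = u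
    · exact Or.inr hxu
    · exact Or.inl ⟨Or.inl ⟨hx, hxu⟩, fun h' => hvD (h' ▸ hx)⟩
  · rintro (⟨h1 | h1, h2⟩ | h1)
    · exact h1.1
    · exact absurd h1 h2
    · rw [h1]
      exact hu

/-- The `IR`-graph of `G`: its vertices are the `IR(G)`-sets, and `D`, `D'` are adjacent when
`D' = (D - {u}) ∪ {v}` for some `u ∈ D` and `v ∈ D' - {u}` that are adjacent in `G`. -/
def irGraph {V : Type} [Fintype V] (G : SimpleGraph V) : SimpleGraph (IRSet G) where
  Adj D D' := Slide G D.1 D'.1
  symm := ⟨fun D D' h => h.symm (D.2.2.trans D'.2.2.symm)⟩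
  loopless := ⟨by
    rintro D ⟨u, hu, v, hv, hne, hadj, h⟩
    rcases (slide_mem h u).1 hu with h1 | h1
    · exact h1.2 rfl
    · exact hne h1.symm⟩

end Q107.IRG
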