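import Pool.Agent.Q107.IRG.Defs

/-!
# Paths as IR-graphs: the graphs and their irredundant triples
-/

set_option autoImplicit false

namespace Q107.IRG.Path

/-- the exceptional non-adjacent pairs -/
def F : List (ℕ × ℕ) :=
  [(0, 1), (0, 2), (1, 2), (3, 4), (3, 5), (2, 5), (1, 6), (4, 6), (5, 6), (1, 7), (3, 7), (0, 8),
    (4, 8), (7, 8), (4, 9), (1, 10), (5, 10)]

/-- non-adjacency of `x < y` -/
def R0 (x y : ℕ) : Bool :=
  (decide (11 ≤ y) && (y == x + 1 || y == x + 5)) || (decide (y ≤ 10) && F.contains (x, y))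

/-- non-adjacency -/
def R (x y : ℕ) : Bool := (decide (x < y) && R0 x y) || (decide (y < x) && R0 y x)

lemma R_symm (x y : ℕ) : R x y = R y x := by
  unfold R
  rw [Bool.or_comm]

lemma R_self (x : ℕ) : R x x = false := by
  simp [R]

lemma R_reg {x y : ℕ} (h : 11 ≤ x ∨ 11 ≤ y) :
    R x y = true ↔ y = x + 1 ∨ y = x + 5 ∨ x = y + 1 ∨ x = y + 5 := by
  unfold R R0
  rcases lt_trichotomy x y with h1 | h1 | h1
  · have h2 : ¬ y < x := by omega
    have h3 : 11 ≤ y := by omega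
    have h4 : ¬ y ≤ 10 := by omega
    simp only [h1, h2, h3, h4, decide_true, decide_false, Bool.true_and, Bool.false_and,
      Bool.or_false, Bool.or_eq_true, beq_iff_eq]
    omega
  · subst h1
    simp
  · have h2 : ¬ x < y := by omega
    have h3 : 11 ≤ x := by omega
    have h4 : ¬ x ≤ 10 := by omega
    simp only [h1, h2, h3, h4, decide_true, decide_false, Bool.true_and, Bool.false_and,
      Bool.or_false, Bool.false_or, Bool.or_eq_true, beq_iff_eq]
    omega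

lemma R_reg_false {x y : ℕ} (h : 11 ≤ x ∨ 11 ≤ y) :
    R x y = false ↔ ¬ (y = x + 1 ∨ y = x + 5 ∨ x = y + 1 ∨ x = y + 5) := by
  rw [← R_reg h, Bool.not_eq_true]

/-- the triples, numbered along the path -/
def T (t : ℤ) (a b c : ℕ) : Prop :=
  (t < 0 ∧ (c : ℤ) = 12 - 2 * t ∧ b + 2 = c ∧ a + 4 = c) ∨
  (13 ≤ t ∧ (c : ℤ) = 2 * t - 11 ∧ b + 2 = c ∧ a + 4 = c) ∨
  (t = 0 ∧ a = 3 ∧ b = 10 ∧ c = 12) ∨ (t = 1 ∧ a = 3 ∧ b = 6 ∧ c = 12) ∨
  (t = 2 ∧ a = 6 ∧ b = 8 ∧ c = 12) ∨ (t = 3 ∧ a = 2 ∧ b = 6 ∧ c = 8) ∨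
  (t = 4 ∧ a = 2 ∧ b = 3 ∧ c = 8) ∨ (t = 5 ∧ a = 1 ∧ b = 2 ∧ c = 3) ∨
  (t = 6 ∧ a = 0 ∧ b = 1 ∧ c = 2) ∨ (t = 7 ∧ a = 0 ∧ b = 1 ∧ c = 4) ∨
  (t = 8 ∧ a = 0 ∧ b = 4 ∧ c = 5) ∨ (t = 9 ∧ a = 0 ∧ b = 5 ∧ c = 7) ∨
  (t = 10 ∧ a = 5 ∧ b = 7 ∧ c = 11) ∨ (t = 11 ∧ a = 4 ∧ b = 7 ∧ c = 11) ∨
  (t = 12 ∧ a = 4 ∧ b = 11 ∧ c = 13)

/-- the three witnesses -/
def Wit (n a b c : ℕ) : Prop :=
  (∃ w < n, R a w = false ∧ R b w = true ∧ R c w = true) ∧
  (∃ w < n, R b w = false ∧ R a w = true ∧ R c w = true) ∧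
  (∃ w < n, R c w = false ∧ R a w = true ∧ R b w = true)

lemma T_wit {n : ℕ} (hn : 16 ≤ n) {t : ℤ} {a b c : ℕ} (h : T t a b c) (hc : c < n) :
    Wit n a b c := by
  have key : (15 ≤ c ∧ b + 2 = c ∧ a + 4 = c) → Wit n a b c := by
    rintro ⟨h1, h2, h3⟩
    refine ⟨⟨c - 1, by omega, ?_, ?_, ?_⟩, ⟨c - 5, by omega, ?_, ?_, ?_⟩,
      ⟨c - 3, by omega, ?_, ?_, ?_⟩⟩
    · rw [R_reg_false (by omega)]; omega
    · rw [R_reg (by omega)]; omega
    · rw [R_reg (by omega)]; omega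
    · rw [R_reg_false (by omega)]; omega
    · rw [R_reg (by omega)]; omega
    · rw [R_reg (by omega)]; omega
    · rw [R_reg_false (by omega)]; omega
    · rw [R_reg (by omega)]; omega
    · rw [R_reg (by omega)]; omega
  rcases h with ⟨h1, h2, h3, h4⟩ | ⟨h1, h2, h3, h4⟩ | ⟨_, rfl, rfl, rfl⟩ | ⟨_, rfl, rfl, rfl⟩ |
    ⟨_, rfl, rfl, rfl⟩ | ⟨_, rfl, rfl, rfl⟩ | ⟨_, rfl, rfl, rfl⟩ | ⟨_, rfl, rfl, rfl⟩ |
    ⟨_, rfl, rfl, rfl⟩ | ⟨_, rfl, rfl, rfl⟩ | ⟨_, rfl, rfl, rfl⟩ | ⟨_, rfl, rfl, rfl⟩ |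
    ⟨_, rfl, rfl, rfl⟩ | ⟨_, rfl, rfl, rfl⟩ | ⟨_, rfl, rfl, rfl⟩
  · by_cases h15 : 15 ≤ c
    · exact key ⟨h15, h3, h4⟩
    · have e1 : c = 14 := by omega
      have e2 : b = 12 := by omega
      have e3 : a = 10 := by omega
      subst e1 e2 e3
      exact ⟨⟨13, by omega, by decide, by decide, by decide⟩,
        ⟨15, by omega, by decide, by decide, by decide⟩,
        ⟨11, by omega, by decide, by decide, by decide⟩⟩
  · exact key ⟨by omega, h3, h4⟩
  · exact ⟨⟨11, by omega, by decide, by decide, by decide⟩,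
      ⟨7, by omega, by decide, by decide, by decide⟩,
      ⟨5, by omega, by decide, by decide, by decide⟩⟩
  · exact ⟨⟨11, by omega, by decide, by decide, by decide⟩,
      ⟨7, by omega, by decide, by decide, by decide⟩,
      ⟨4, by omega, by decide, by decide, by decide⟩⟩
  · exact ⟨⟨7, by omega, by decide, by decide, by decide⟩,
      ⟨11, by omega, by decide, by decide, by decide⟩,
      ⟨4, by omega, by decide, by decide, by decide⟩⟩
  · exact ⟨⟨4, by omega, by decide, by decide, by decide⟩,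
      ⟨0, by omega, by decide, by decide, by decide⟩,
      ⟨1, by omega, by decide, by decide, by decide⟩⟩
  · exact ⟨⟨4, by omega, by decide, by decide, by decide⟩,
      ⟨0, by omega, by decide, by decide, by decide⟩,
      ⟨5, by omega, by decide, by decide, by decide⟩⟩
  · exact ⟨⟨5, by omega, by decide, by decide, by decide⟩,
      ⟨7, by omega, by decide, by decide, by decide⟩,
      ⟨0, by omega, by decide, by decide, by decide⟩⟩
  · exact ⟨⟨0, by omega, by decide, by decide, by decide⟩,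
      ⟨1, by omega, by decide, by decide, by decide⟩,
      ⟨2, by omega, by decide, by decide, by decide⟩⟩
  · exact ⟨⟨6, by omega, by decide, by decide, by decide⟩,
      ⟨8, by omega, by decide, by decide, by decide⟩,
      ⟨2, by omega, by decide, by decide, by decide⟩⟩
  · exact ⟨⟨3, by omega, by decide, by decide, by decide⟩,
      ⟨2, by omega, by decide, by decide, by decide⟩,
      ⟨8, by omega, by decide, by decide, by decide⟩⟩
  · exact ⟨⟨3, by omega, by decide, by decide, by decide⟩,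
      ⟨1, by omega, by decide, by decide, by decide⟩,
      ⟨2, by omega, by decide, by decide, by decide⟩⟩
  · exact ⟨⟨12, by omega, by decide, by decide, by decide⟩,
      ⟨6, by omega, by decide, by decide, by decide⟩,
      ⟨3, by omega, by decide, by decide, by decide⟩⟩
  · exact ⟨⟨12, by omega, by decide, by decide, by decide⟩,
      ⟨6, by omega, by decide, by decide, by decide⟩,
      ⟨3, by omega, by decide, by decide, by decide⟩⟩
  · exact ⟨⟨12, by omega, by decide, by decide, by decide⟩,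
      ⟨8, by omega, by decide, by decide, by decide⟩,
      ⟨6, by omega, by decide, by decide, by decide⟩⟩

/-! ### classification -/

lemma top {v b c wa wb wc : ℕ} (hv : 18 ≤ v) (hb : b < v) (hc : c < v)
    (h1 : wa ≤ v) (h2 : wb ≤ v) (h3 : wc ≤ v)
    (r1 : R v wb = true) (r2 : R v wc = true) (r3 : R b wa = true) (r4 : R b wc = true)
    (r5 : R c wa = true) (r6 : R c wb = true)
    (n1 : R v wa = false) (n2 : R b wb = false) (n3 : R c wc = false) :
    (b + 2 = v ∧ c + 4 = v ∨ b + 4 = v ∧ c + 2 = v) ∧ wa + 3 = v := by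
  rw [R_reg (Or.inl (by omega))] at r1 r2
  have hwb : wb + 1 = v ∨ wb + 5 = v := by omega
  have hwc : wc + 1 = v ∨ wc + 5 = v := by omega
  rw [R_reg (Or.inr (by omega))] at r4 r6
  rw [R_reg_false (Or.inl (by omega))] at n1
  rw [R_reg_false (Or.inr (by omega))] at n2 n3
  have hne : wb ≠ wc := by
    rintro rfl
    exact n2 r4
  rcases hwb with h | h <;> rcases hwc with h' | h'
  · omega
  · -- `wb = v - 1`, `wc = v - 5`
    have hb' : b + 4 = v ∨ b + 6 = v ∨ b + 10 = v := by omega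
    have hc' : c + 2 = v ∨ c + 6 = v := by omega
    have hc2 : c + 2 = v := by omega
    rw [R_reg (Or.inl (by omega))] at r5
    have hwa : wa + 1 = v ∨ wa + 3 = v ∨ wa + 7 = v := by omega
    rw [R_reg (Or.inr (by omega))] at r3
    rcases hwa with h3 | h3 | h3 <;> omega
  · -- `wb = v - 5`, `wc = v - 1`
    have hc' : c + 4 = v ∨ c + 6 = v ∨ c + 10 = v := by omega
    have hb' : b + 2 = v ∨ b + 6 = v := by omega
    have hb2 : b + 2 = v := by omega
    rw [R_reg (Or.inl (by omega))] at r3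
    have hwa : wa + 1 = v ∨ wa + 3 = v ∨ wa + 7 = v := by omega
    rw [R_reg (Or.inr (by omega))] at r5
    rcases hwa with h3 | h3 | h3 <;> omega
  · omega

/-- one witness, as a Boolean -/
def wit (v x y : ℕ) : Bool := (List.range 18).any fun w => !R v w && R x w && R y w

/-- the small triples, as a Boolean -/
def isT (a b c : ℕ) : Bool :=
  (decide (14 ≤ c) && b + 2 == c && a + 4 == c) ||
  (a == 3 && b == 10 && c == 12) || (a == 3 && b == 6 && c == 12) ||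
  (a == 6 && b == 8 && c == 12) || (a == 2 && b == 6 && c == 8) ||
  (a == 2 && b == 3 && c == 8) || (a == 1 && b == 2 && c == 3) ||
  (a == 0 && b == 1 && c == 2) || (a == 0 && b == 1 && c == 4) ||
  (a == 0 && b == 4 && c == 5) || (a == 0 && b == 5 && c == 7) ||
  (a == 5 && b == 7 && c == 11) || (a == 4 && b == 7 && c == 11) ||
  (a == 4 && b == 11 && c == 13)

lemma base : ∀ a b c : Fin 18, a < b → b < c →
    (wit a.val b.val c.val && wit b.val a.val c.val && wit c.val a.val b.val) = true →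
    isT a.val b.val c.val = true := by
  decide +kernel

lemma wit_true {v x y w : ℕ} (hw : w < 18) (h1 : R v w = false) (h2 : R x w = true)
    (h3 : R y w = true) : wit v x y = true := by
  unfold wit
  rw [List.any_eq_true]
  exact ⟨w, List.mem_range.2 hw, by simp [h1, h2, h3]⟩

lemma T_large {a b c : ℕ} (h1 : 14 ≤ c) (h2 : b + 2 = c) (h3 : a + 4 = c) : ∃ t, T t a b c := by
  unfold T
  rcases Nat.even_or_odd' c with ⟨m, hm | hm⟩
  · exact ⟨6 - m, Or.inl ⟨by omega, by omega, h2, h3⟩⟩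
  · exact ⟨m + 6, Or.inr (Or.inl ⟨by omega, by omega, h2, h3⟩)⟩

lemma isT_T {a b c : ℕ} (h : isT a b c = true) : ∃ t, T t a b c := by
  unfold isT at h
  simp only [Bool.or_eq_true, Bool.and_eq_true, decide_eq_true_eq, beq_iff_eq] at h
  rcases h with (((((((((((((h | h) | h) | h) | h) | h) | h) | h) | h) | h) | h) | h) | h) | h)
  · exact T_large h.1.1 h.1.2 h.2
  · obtain ⟨⟨rfl, rfl⟩, rfl⟩ := h
    exact ⟨0, by simp [T]⟩
  · obtain ⟨⟨rfl, rfl⟩, rfl⟩ := h
    exact ⟨1, by simp [T]⟩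
  · obtain ⟨⟨rfl, rfl⟩, rfl⟩ := h
    exact ⟨2, by simp [T]⟩
  · obtain ⟨⟨rfl, rfl⟩, rfl⟩ := h
    exact ⟨3, by simp [T]⟩
  · obtain ⟨⟨rfl, rfl⟩, rfl⟩ := h
    exact ⟨4, by simp [T]⟩
  · obtain ⟨⟨rfl, rfl⟩, rfl⟩ := h
    exact ⟨5, by simp [T]⟩
  · obtain ⟨⟨rfl, rfl⟩, rfl⟩ := h
    exact ⟨6, by simp [T]⟩
  · obtain ⟨⟨rfl, rfl⟩, rfl⟩ := h
    exact ⟨7, by simp [T]⟩
  · obtain ⟨⟨rfl, rfl⟩, rfl⟩ := h
    exact ⟨8, by simp [T]⟩
  · obtain ⟨⟨rfl, rfl⟩, rfl⟩ := h
    exact ⟨9, by simp [T]⟩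
  · obtain ⟨⟨rfl, rfl⟩, rfl⟩ := h
    exact ⟨10, by simp [T]⟩
  · obtain ⟨⟨rfl, rfl⟩, rfl⟩ := h
    exact ⟨11, by simp [T]⟩
  · obtain ⟨⟨rfl, rfl⟩, rfl⟩ := h
    exact ⟨12, by simp [T]⟩

/-- every irredundant triple is one of the triples `T` -/
lemma classify {n a b c : ℕ} (hab : a < b) (hbc : b < c) (hc : c < n) (h : Wit n a b c) :
    ∃ t, T t a b c := by
  obtain ⟨⟨wa, _, a1, a2, a3⟩, ⟨wb, _, b1, b2, b3⟩, ⟨wc, _, c1, c2, c3⟩⟩ := h
  by_cases hsmall : c < 18 ∧ wa < 18 ∧ wb < 18 ∧ wc < 18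
  · obtain ⟨s1, s2, s3, s4⟩ := hsmall
    apply isT_T
    exact base ⟨a, by omega⟩ ⟨b, by omega⟩ ⟨c, by omega⟩ hab hbc (by
      rw [Bool.and_eq_true, Bool.and_eq_true]
      exact ⟨⟨wit_true s2 a1 a2 a3, wit_true s3 b1 b2 b3⟩, wit_true s4 c1 c2 c3⟩)
  · have ne1 : wa ≠ wb := fun h' => by rw [h', b1] at a2; exact absurd a2 (by decide)
    have ne2 : wa ≠ wc := fun h' => by rw [h', c1] at a3; exact absurd a3 (by decide)
    have ne3 : wb ≠ wc := fun h' => by rw [h', c1] at b3; exact absurd b3 (by decide)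
    rcases (by omega : (wa ≤ c ∧ wb ≤ c ∧ wc ≤ c ∧ 18 ≤ c) ∨
        (c ≤ wa ∧ wb ≤ wa ∧ wc ≤ wa ∧ 18 ≤ wa) ∨ (c ≤ wb ∧ wa ≤ wb ∧ wc ≤ wb ∧ 18 ≤ wb) ∨
        (c ≤ wc ∧ wa ≤ wc ∧ wb ≤ wc ∧ 18 ≤ wc)) with h' | h' | h' | h'
    · have := top (v := c) (b := a) (c := b) (wa := wc) (wb := wa) (wc := wb) (by omega)
        (by omega) (by omega) (by omega) (by omega) (by omega) a3 b3 c2 b2 c3 a2 c1 a1 b1
      exact T_large (by omega) (by omega) (by omega)
    · rw [R_symm] at a1 a2 a3 b1 b2 b3 c1 c2 c3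
      have := top (v := wa) (b := wb) (c := wc) (wa := a) (wb := b) (wc := c) (by omega)
        (by omega) (by omega) (by omega) (by omega) (by omega) a2 a3 b2 b3 c2 c3 a1 b1 c1
      rw [R_reg (by omega)] at a2 a3
      omega
    · rw [R_symm] at a1 a2 a3 b1 b2 b3 c1 c2 c3
      have := top (v := wb) (b := wa) (c := wc) (wa := b) (wb := a) (wc := c) (by omega)
        (by omega) (by omega) (by omega) (by omega) (by omega) b2 b3 a2 a3 c3 c2 b1 a1 c1
      rw [R_reg (by omega)] at b2 b3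
      exact T_large (by omega) (by omega) (by omega)
    · rw [R_symm] at a1 a2 a3 b1 b2 b3 c1 c2 c3
      have := top (v := wc) (b := wa) (c := wb) (wa := c) (wb := a) (wc := b) (by omega)
        (by omega) (by omega) (by omega) (by omega) (by omega) c2 c3 a3 a2 b3 b2 c1 a1 b1
      rw [R_reg (by omega)] at c2 c3
      omega

end Q107.IRG.Path
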