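import Pool.Agent.Q107.IRG.PathBase

/-!
# Paths as IR-graphs: the IR-graph
-/

set_option autoImplicit false

namespace Q107.IRG.Path

open Finset

/-- the graph on `n` vertices -/
def pg (n : ℕ) : SimpleGraph (Fin n) where
  Adj x y := x ≠ y ∧ R x.val y.val = false
  symm := ⟨fun x y h => ⟨h.1.symm, by rw [R_symm]; exact h.2⟩⟩
  loopless := ⟨fun _ h => h.1 rfl⟩

lemma nbr_iff {n : ℕ} {v w : Fin n} : (w = v ∨ (pg n).Adj v w) ↔ R v.val w.val = false := by
  constructor
  · rintro (rfl | h)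
    · exact R_self _
    · exact h.2
  · intro h
    by_cases hvw : w = v
    · exact Or.inl hvw
    · exact Or.inr ⟨fun h' => hvw h'.symm, h⟩

lemma irr_iff {n : ℕ} {D : Finset (Fin n)} : IsIrredundant (pg n) D ↔
    ∀ v ∈ D, ∃ w : Fin n, R v.val w.val = false ∧ ∀ u ∈ D, u ≠ v → R u.val w.val = true := by
  unfold IsIrredundant
  refine forall_congr' fun v => forall_congr' fun _ => exists_congr fun w => ?_
  rw [nbr_iff]
  refine and_congr_right fun _ => forall_congr' fun u => forall_congr' fun _ =>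
    forall_congr' fun _ => ?_
  rw [nbr_iff, Bool.not_eq_false]

lemma irr_mono {V : Type} {G : SimpleGraph V} {D D' : Finset V} (h : IsIrredundant G D)
    (hs : D' ⊆ D) : IsIrredundant G D' := by
  intro v hv
  obtain ⟨w, h1, h2⟩ := h v (hs hv)
  exact ⟨w, h1, fun u hu => h2 u (hs hu)⟩

/-- the set with the elements `a`, `b`, `c` -/
def S3 (n a b c : ℕ) : Finset (Fin n) :=
  univ.filter fun x => x.val = a ∨ x.val = b ∨ x.val = c

lemma mem_S3 {n a b c : ℕ} {x : Fin n} :
    x ∈ S3 n a b c ↔ x.val = a ∨ x.val = b ∨ x.val = c := by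
  unfold S3
  rw [mem_filter]
  exact ⟨fun h => h.2, fun h => ⟨mem_univ _, h⟩⟩

lemma S3_card {n a b c : ℕ} (hab : a < b) (hbc : b < c) (hc : c < n) :
    (S3 n a b c).card = 3 := by
  rw [card_eq_three]
  refine ⟨⟨a, by omega⟩, ⟨b, by omega⟩, ⟨c, hc⟩, ?_, ?_, ?_, ?_⟩
  · intro h
    have := congrArg Fin.val h
    simp at this
    omega
  · intro h
    have := congrArg Fin.val h
    simp at this
    omega
  · intro h
    have := congrArg Fin.val h
    simp at this
    omega
  · ext x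
    rw [mem_S3]
    simp only [mem_insert, mem_singleton, Fin.ext_iff]

lemma exists_S3 {n : ℕ} {D : Finset (Fin n)} (hD : D.card = 3) :
    ∃ a b c, a < b ∧ b < c ∧ c < n ∧ D = S3 n a b c := by
  obtain ⟨x, y, z, hxy, hxz, hyz, rfl⟩ := card_eq_three.1 hD
  have h1 : x.val ≠ y.val := fun h => hxy (Fin.ext h)
  have h2 : x.val ≠ z.val := fun h => hxz (Fin.ext h)
  have h3 : y.val ≠ z.val := fun h => hyz (Fin.ext h)
  have hx := x.isLt
  have hy := y.isLt
  have hz := z.isLt
  have key : ∀ a b c : ℕ, (∀ k : ℕ, (k = x.val ∨ k = y.val ∨ k = z.val) ↔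
      (k = a ∨ k = b ∨ k = c)) → ({x, y, z} : Finset (Fin n)) = S3 n a b c := by
    intro a b c h
    ext w
    rw [mem_S3]
    simp only [mem_insert, mem_singleton, Fin.ext_iff]
    exact h w.val
  rcases lt_or_gt_of_ne h1 with g1 | g1 <;> rcases lt_or_gt_of_ne h2 with g2 | g2 <;>
    rcases lt_or_gt_of_ne h3 with g3 | g3
  · exact ⟨x, y, z, g1, g3, hz, key _ _ _ fun k => by omega⟩
  · exact ⟨x, z, y, g2, g3, hy, key _ _ _ fun k => by omega⟩
  · omega
  · exact ⟨z, x, y, g2, g1, hy, key _ _ _ fun k => by omega⟩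
  · exact ⟨y, x, z, g1, g2, hz, key _ _ _ fun k => by omega⟩
  · omega
  · exact ⟨y, z, x, g3, g2, hx, key _ _ _ fun k => by omega⟩
  · exact ⟨z, y, x, g3, g1, hx, key _ _ _ fun k => by omega⟩

lemma S3_irr {n a b c : ℕ} (hab : a < b) (hbc : b < c) (hc : c < n) :
    IsIrredundant (pg n) (S3 n a b c) ↔ Wit n a b c := by
  rw [irr_iff]
  constructor
  · intro h
    refine ⟨?_, ?_, ?_⟩
    · obtain ⟨w, h1, h2⟩ := h ⟨a, by omega⟩ (mem_S3.2 (Or.inl rfl))
      refine ⟨w.val, w.isLt, h1, ?_, ?_⟩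
      · exact h2 ⟨b, by omega⟩ (mem_S3.2 (Or.inr (Or.inl rfl))) (by
          rw [Ne, Fin.ext_iff]; change ¬ b = a; omega)
      · exact h2 ⟨c, hc⟩ (mem_S3.2 (Or.inr (Or.inr rfl))) (by
          rw [Ne, Fin.ext_iff]; change ¬ c = a; omega)
    · obtain ⟨w, h1, h2⟩ := h ⟨b, by omega⟩ (mem_S3.2 (Or.inr (Or.inl rfl)))
      refine ⟨w.val, w.isLt, h1, ?_, ?_⟩
      · exact h2 ⟨a, by omega⟩ (mem_S3.2 (Or.inl rfl)) (by
          rw [Ne, Fin.ext_iff]; change ¬ a = b; omega)
      · exact h2 ⟨c, hc⟩ (mem_S3.2 (Or.inr (Or.inr rfl))) (by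
          rw [Ne, Fin.ext_iff]; change ¬ c = b; omega)
    · obtain ⟨w, h1, h2⟩ := h ⟨c, hc⟩ (mem_S3.2 (Or.inr (Or.inr rfl)))
      refine ⟨w.val, w.isLt, h1, ?_, ?_⟩
      · exact h2 ⟨a, by omega⟩ (mem_S3.2 (Or.inl rfl)) (by
          rw [Ne, Fin.ext_iff]; change ¬ a = c; omega)
      · exact h2 ⟨b, by omega⟩ (mem_S3.2 (Or.inr (Or.inl rfl))) (by
          rw [Ne, Fin.ext_iff]; change ¬ b = c; omega)
  · rintro ⟨⟨wa, ha, a1, a2, a3⟩, ⟨wb, hb, b1, b2, b3⟩, ⟨wc, hc', c1, c2, c3⟩⟩ v hv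
    rw [mem_S3] at hv
    rcases hv with h | h | h
    · refine ⟨⟨wa, ha⟩, by rw [h]; exact a1, ?_⟩
      intro u hu hne
      rw [mem_S3] at hu
      rw [Ne, Fin.ext_iff, h] at hne
      rcases hu with h' | h' | h'
      · exact absurd h' hne
      · rw [h']; exact a2
      · rw [h']; exact a3
    · refine ⟨⟨wb, hb⟩, by rw [h]; exact b1, ?_⟩
      intro u hu hne
      rw [mem_S3] at hu
      rw [Ne, Fin.ext_iff, h] at hne
      rcases hu with h' | h' | h'
      · rw [h']; exact b2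
      · exact absurd h' hne
      · rw [h']; exact b3
    · refine ⟨⟨wc, hc'⟩, by rw [h]; exact c1, ?_⟩
      intro u hu hne
      rw [mem_S3] at hu
      rw [Ne, Fin.ext_iff, h] at hne
      rcases hu with h' | h' | h'
      · rw [h']; exact c2
      · rw [h']; exact c3
      · exact absurd h' hne

/-! ### facts about the triples -/

lemma T_sorted {t : ℤ} {a b c : ℕ} (h : T t a b c) : a < b ∧ b < c := by
  unfold T at h
  rcases h with h | h | h | h | h | h | h | h | h | h | h | h | h | h | h <;> omega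

lemma T_exists (t : ℤ) : ∃ a b c, T t a b c := by
  by_cases h0 : t < 0
  · exact ⟨(8 - 2 * t).toNat, (10 - 2 * t).toNat, (12 - 2 * t).toNat, Or.inl
      ⟨h0, by omega, by omega, by omega⟩⟩
  · by_cases h13 : 13 ≤ t
    · exact ⟨(2 * t - 15).toNat, (2 * t - 13).toNat, (2 * t - 11).toNat, Or.inr (Or.inl
        ⟨h13, by omega, by omega, by omega⟩)⟩
    · have h1 : 0 ≤ t := by omega
      have h2 : t < 13 := by omega
      interval_cases t
      · exact ⟨3, 10, 12, by simp [T]⟩
      · exact ⟨3, 6, 12, by simp [T]⟩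
      · exact ⟨6, 8, 12, by simp [T]⟩
      · exact ⟨2, 6, 8, by simp [T]⟩
      · exact ⟨2, 3, 8, by simp [T]⟩
      · exact ⟨1, 2, 3, by simp [T]⟩
      · exact ⟨0, 1, 2, by simp [T]⟩
      · exact ⟨0, 1, 4, by simp [T]⟩
      · exact ⟨0, 4, 5, by simp [T]⟩
      · exact ⟨0, 5, 7, by simp [T]⟩
      · exact ⟨5, 7, 11, by simp [T]⟩
      · exact ⟨4, 7, 11, by simp [T]⟩
      · exact ⟨4, 11, 13, by simp [T]⟩

lemma T_inj {t s : ℤ} {a b c : ℕ} (h : T t a b c) (h' : T s a b c) : t = s := by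
  unfold T at h h'
  rcases h with h | h | h | h | h | h | h | h | h | h | h | h | h | h | h <;>
    rcases h' with h' | h' | h' | h' | h' | h' | h' | h' | h' | h' | h' | h' | h' | h' | h' <;>
    omega

/-- no four elements all triples of which are in `T` -/
lemma no_quad {a b c d : ℕ} {t s r : ℤ} (h1 : T t b c d) (h2 : T s a c d) (h3 : T r a b d)
    (hab : a < b) : False := by
  unfold T at h1 h2 h3
  rcases h1 with h1 | h1 | h1 | h1 | h1 | h1 | h1 | h1 | h1 | h1 | h1 | h1 | h1 | h1 | h1 <;>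
    rcases h2 with h2 | h2 | h2 | h2 | h2 | h2 | h2 | h2 | h2 | h2 | h2 | h2 | h2 | h2 | h2 <;>
    omega

lemma T_adj {t s : ℤ} {a b c a' b' c' : ℕ} (h : T t a b c) (h' : T s a' b' c')
    (hc : (∀ x, x = b ∨ x = c → x = a' ∨ x = b' ∨ x = c') ∨
      (∀ x, x = a ∨ x = c → x = a' ∨ x = b' ∨ x = c') ∨
      (∀ x, x = a ∨ x = b → x = a' ∨ x = b' ∨ x = c')) : s = t ∨ s = t + 1 ∨ t = s + 1 := by
  have hc' : ((b = a' ∨ b = b' ∨ b = c') ∧ (c = a' ∨ c = b' ∨ c = c')) ∨
      ((a = a' ∨ a = b' ∨ a = c') ∧ (c = a' ∨ c = b' ∨ c = c')) ∨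
      ((a = a' ∨ a = b' ∨ a = c') ∧ (b = a' ∨ b = b' ∨ b = c')) := by
    rcases hc with hc | hc | hc
    · exact Or.inl ⟨hc b (Or.inl rfl), hc c (Or.inr rfl)⟩
    · exact Or.inr (Or.inl ⟨hc a (Or.inl rfl), hc c (Or.inr rfl)⟩)
    · exact Or.inr (Or.inr ⟨hc a (Or.inl rfl), hc b (Or.inr rfl)⟩)
  clear hc
  unfold T at h h'
  rcases h with h | h | h | h | h | h | h | h | h | h | h | h | h | h | h <;>
    rcases h' with h' | h' | h' | h' | h' | h' | h' | h' | h' | h' | h' | h' | h' | h' | h' <;>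
    omega

/-- the exchange between consecutive triples -/
lemma T_succ {t : ℤ} {a b c a' b' c' : ℕ} (h : T t a b c) (h' : T (t + 1) a' b' c') :
    ∃ u v, (u = a ∨ u = b ∨ u = c) ∧ (v = a' ∨ v = b' ∨ v = c') ∧ v ≠ u ∧ R u v = false ∧
      ∀ x, (x = a' ∨ x = b' ∨ x = c') ↔ ((x = a ∨ x = b ∨ x = c) ∧ x ≠ u) ∨ x = v := by
  by_cases h0 : t < -1
  · have e1 : (c : ℤ) = 12 - 2 * t ∧ b + 2 = c ∧ a + 4 = c := by
      unfold T at h
      omega
    have e2 : (c' : ℤ) = 10 - 2 * t ∧ b' + 2 = c' ∧ a' + 4 = c' := by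
      unfold T at h'
      omega
    refine ⟨c, a', Or.inr (Or.inr rfl), Or.inl rfl, by omega, ?_, fun x => by omega⟩
    rw [R_reg_false (by omega)]
    omega
  · by_cases h13 : 13 ≤ t
    · have e1 : (c : ℤ) = 2 * t - 11 ∧ b + 2 = c ∧ a + 4 = c := by
        unfold T at h
        omega
      have e2 : (c' : ℤ) = 2 * t - 9 ∧ b' + 2 = c' ∧ a' + 4 = c' := by
        unfold T at h'
        omega
      refine ⟨a, c', Or.inl rfl, Or.inr (Or.inr rfl), by omega, ?_, fun x => by omega⟩
      rw [R_reg_false (by omega)]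
      omega
    · have h1 : -1 ≤ t := by omega
      have h2 : t < 13 := by omega
      have key : ∀ A B C A' B' C' U V : ℕ, (a = A ∧ b = B ∧ c = C) →
          (a' = A' ∧ b' = B' ∧ c' = C') → (U = A ∨ U = B ∨ U = C) → (V = A' ∨ V = B' ∨ V = C') →
          V ≠ U → R U V = false → (∀ x, (x = A' ∨ x = B' ∨ x = C') ↔
            ((x = A ∨ x = B ∨ x = C) ∧ x ≠ U) ∨ x = V) →
          ∃ u v, (u = a ∨ u = b ∨ u = c) ∧ (v = a' ∨ v = b' ∨ v = c') ∧ v ≠ u ∧ R u v = false ∧
            ∀ x, (x = a' ∨ x = b' ∨ x = c') ↔ ((x = a ∨ x = b ∨ x = c) ∧ x ≠ u) ∨ x = v := by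
        rintro A B C A' B' C' U V ⟨rfl, rfl, rfl⟩ ⟨rfl, rfl, rfl⟩ g1 g2 g3 g4 g5
        exact ⟨U, V, g1, g2, g3, g4, g5⟩
      unfold T at h h'
      interval_cases t
      · exact key 10 12 14 3 10 12 14 3 (by omega) (by omega) (by omega) (by omega) (by omega)
          (by decide) (fun x => by omega)
      · exact key 3 10 12 3 6 12 10 6 (by omega) (by omega) (by omega) (by omega) (by omega)
          (by decide) (fun x => by omega)
      · exact key 3 6 12 6 8 12 3 8 (by omega) (by omega) (by omega) (by omega) (by omega)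
          (by decide) (fun x => by omega)
      · exact key 6 8 12 2 6 8 12 2 (by omega) (by omega) (by omega) (by omega) (by omega)
          (by decide) (fun x => by omega)
      · exact key 2 6 8 2 3 8 6 3 (by omega) (by omega) (by omega) (by omega) (by omega)
          (by decide) (fun x => by omega)
      · exact key 2 3 8 1 2 3 8 1 (by omega) (by omega) (by omega) (by omega) (by omega)
          (by decide) (fun x => by omega)
      · exact key 1 2 3 0 1 2 3 0 (by omega) (by omega) (by omega) (by omega) (by omega)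
          (by decide) (fun x => by omega)
      · exact key 0 1 2 0 1 4 2 4 (by omega) (by omega) (by omega) (by omega) (by omega)
          (by decide) (fun x => by omega)
      · exact key 0 1 4 0 4 5 1 5 (by omega) (by omega) (by omega) (by omega) (by omega)
          (by decide) (fun x => by omega)
      · exact key 0 4 5 0 5 7 4 7 (by omega) (by omega) (by omega) (by omega) (by omega)
          (by decide) (fun x => by omega)
      · exact key 0 5 7 5 7 11 0 11 (by omega) (by omega) (by omega) (by omega) (by omega)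
          (by decide) (fun x => by omega)
      · exact key 5 7 11 4 7 11 5 4 (by omega) (by omega) (by omega) (by omega) (by omega)
          (by decide) (fun x => by omega)
      · exact key 4 7 11 4 11 13 7 13 (by omega) (by omega) (by omega) (by omega) (by omega)
          (by decide) (fun x => by omega)
      · exact key 4 11 13 11 13 15 4 15 (by omega) (by omega) (by omega) (by omega) (by omega)
          (by decide) (fun x => by omega)

/-! ### the upper irredundance number -/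

lemma triple_T {n : ℕ} {D : Finset (Fin n)} (hD : IsIrredundant (pg n) D) (hc : D.card = 3) :
    ∃ t a b c, T t a b c ∧ a < b ∧ b < c ∧ c < n ∧ D = S3 n a b c := by
  obtain ⟨a, b, c, hab, hbc, hcn, rfl⟩ := exists_S3 hc
  obtain ⟨t, ht⟩ := classify hab hbc hcn ((S3_irr hab hbc hcn).1 hD)
  exact ⟨t, a, b, c, ht, hab, hbc, hcn, rfl⟩

lemma card_le {n : ℕ} {D : Finset (Fin n)} (hD : IsIrredundant (pg n) D) : D.card ≤ 3 := by
  by_contra hcon
  obtain ⟨E, hE, hEc⟩ := exists_subset_card_eq (show 4 ≤ D.card by omega)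
  have hEi := irr_mono hD hE
  have hne : E.Nonempty := by
    rw [← card_pos]
    omega
  -- the largest element
  let d := E.max' hne
  have hd : d ∈ E := E.max'_mem hne
  obtain ⟨a, b, c, hab, hbc, hcn, h3⟩ := exists_S3 (D := E.erase d)
    (by rw [card_erase_of_mem hd, hEc])
  have hmem : ∀ x : Fin n, x ∈ E ↔ x.val = d.val ∨ x.val = a ∨ x.val = b ∨ x.val = c := by
    intro x
    have h4 : x ∈ E.erase d ↔ x.val = a ∨ x.val = b ∨ x.val = c := by rw [h3, mem_S3]
    rw [mem_erase] at h4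
    by_cases hx : x = d
    · rw [hx]
      simp [hd]
    · have hx' : x.val ≠ d.val := fun h => hx (Fin.ext h)
      constructor
      · intro hxE
        exact Or.inr (h4.1 ⟨hx, hxE⟩)
      · rintro (h | h)
        · exact absurd h hx'
        · exact (h4.2 h).2
  have hcd : c < d.val := by
    have h5 : (⟨c, hcn⟩ : Fin n) ∈ E.erase d := by
      rw [h3, mem_S3]
      exact Or.inr (Or.inr rfl)
    have h6 : (⟨c, hcn⟩ : Fin n) ≤ d := E.le_max' _ (mem_of_mem_erase h5)
    have h7 : (⟨c, hcn⟩ : Fin n) ≠ d := (mem_erase.1 h5).1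
    exact lt_of_le_of_ne h6 (fun h8 => h7 (Fin.ext h8))
  have hsub : ∀ x y z : ℕ, x < y → y < z → z < n →
      (∀ k, k = x ∨ k = y ∨ k = z → k = d.val ∨ k = a ∨ k = b ∨ k = c) → ∃ t, T t x y z := by
    intro x y z h1 h2 h4 h5
    have h6 : IsIrredundant (pg n) (S3 n x y z) := by
      apply irr_mono hEi
      intro w hw
      rw [mem_S3] at hw
      exact (hmem w).2 (h5 _ hw)
    exact classify h1 h2 h4 ((S3_irr h1 h2 h4).1 h6)
  obtain ⟨t, ht⟩ := hsub b c d.val hbc hcd d.isLt (fun k hk => by omega)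
  obtain ⟨s, hs⟩ := hsub a c d.val (hab.trans hbc) hcd d.isLt (fun k hk => by omega)
  obtain ⟨r, hr⟩ := hsub a b d.val hab (hbc.trans hcd) d.isLt (fun k hk => by omega)
  exact no_quad ht hs hr hab

lemma IRNum_eq {n : ℕ} (hn : 16 ≤ n) : IRNum (pg n) = 3 := by
  have hex : ∃ D : Finset (Fin n), IsIrredundant (pg n) D ∧ D.card = 3 := by
    have hT : T 6 0 1 2 := by simp [T]
    exact ⟨S3 n 0 1 2, (S3_irr (by omega) (by omega) (by omega)).2 (T_wit hn hT (by omega)),
      S3_card (by omega) (by omega) (by omega)⟩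
  apply le_antisymm
  · apply csSup_le
    · exact ⟨3, hex⟩
    · rintro k ⟨D, hD, rfl⟩
      exact card_le hD
  · apply le_csSup
    · refine ⟨3, ?_⟩
      rintro k ⟨D, hD, rfl⟩
      exact card_le hD
    · exact hex

/-! ### the IR-graph -/

lemma slide_succ {n : ℕ} {t : ℤ} {a b c a' b' c' : ℕ} (h : T t a b c) (h' : T (t + 1) a' b' c')
    (hc : c < n) (hc' : c' < n) : Slide (pg n) (S3 n a b c) (S3 n a' b' c') := by
  obtain ⟨u, v, hu, hv, hne, hR, hx⟩ := T_succ h h'
  have s1 := T_sorted h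
  have s2 := T_sorted h'
  have hun : u < n := by omega
  have hvn : v < n := by omega
  refine ⟨⟨u, hun⟩, mem_S3.2 hu, ⟨v, hvn⟩, mem_S3.2 hv, ?_, ⟨?_, hR⟩, ?_⟩
  · rw [Ne, Fin.ext_iff]
    exact hne
  · rw [Ne, Fin.ext_iff]
    exact hne.symm
  · ext x
    simp only [mem_coe, Set.mem_union, Set.mem_sdiff, Set.mem_singleton_iff]
    rw [mem_S3, mem_S3, Fin.ext_iff, Fin.ext_iff]
    exact hx x.val

lemma slide_imp {n : ℕ} {t s : ℤ} {a b c a' b' c' : ℕ} (h : T t a b c) (h' : T s a' b' c')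
    (hc : c < n) (hs : Slide (pg n) (S3 n a b c) (S3 n a' b' c')) : s = t + 1 ∨ t = s + 1 := by
  obtain ⟨u, hu, v, hv, hne, hadj, hset⟩ := hs
  have hm := slide_mem hset
  have s1 := T_sorted h
  have hts : s ≠ t := by
    rintro rfl
    -- the two sets would be equal
    have e : a = a' ∧ b = b' ∧ c = c' := by
      unfold T at h h'
      rcases h with h | h | h | h | h | h | h | h | h | h | h | h | h | h | h <;>
        rcases h' with h' | h' | h' | h' | h' | h' | h' | h' | h' | h' | h' | h' | h' | h' | h' <;>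
        omega
    obtain ⟨rfl, rfl, rfl⟩ := e
    rcases (hm u).1 hu with h1 | h1
    · exact h1.2 rfl
    · exact hne h1.symm
  have hin : ∀ x : ℕ, x ≠ u.val → (x = a ∨ x = b ∨ x = c) → (x = a' ∨ x = b' ∨ x = c') := by
    intro x hx hx2
    have hxn : x < n := by omega
    have h1 : (⟨x, hxn⟩ : Fin n) ∈ S3 n a' b' c' :=
      (hm _).2 (Or.inl ⟨mem_S3.2 hx2, fun h' => hx (congrArg Fin.val h')⟩)
    exact mem_S3.1 h1
  rw [mem_S3] at hu
  have := T_adj h h' (by
    rcases hu with hu | hu | hu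
    · exact Or.inl fun x hx => hin x (by omega) (by omega)
    · exact Or.inr (Or.inl fun x hx => hin x (by omega) (by omega))
    · exact Or.inr (Or.inr fun x hx => hin x (by omega) (by omega)))
  rcases this with h1 | h1 | h1
  · exact absurd h1 hts
  · exact Or.inl h1
  · exact Or.inr h1

/-- for `n ≥ 16` the IR-graph of `pg n` is the path on `n - 1` vertices -/
theorem path_iso {n : ℕ} (hn : 16 ≤ n) :
    Nonempty (irGraph (pg n) ≃g SimpleGraph.pathGraph (n - 1)) := by
  choose A B C hT using T_exists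
  have hIR := IRNum_eq hn
  -- the position of the `i`-th set
  let τ : Fin (n - 1) → ℤ := fun i => (i.val : ℤ) - ((n - 13) / 2 : ℕ)
  have hτ : ∀ i, τ i = (i.val : ℤ) - ((n - 13) / 2 : ℕ) := fun i => rfl
  have hC : ∀ i, C (τ i) < n := by
    intro i
    have h1 := hT (τ i)
    have h2 := hτ i
    have h3 := i.isLt
    generalize τ i = t at h1 h2
    unfold T at h1
    rcases h1 with h | h | h | h | h | h | h | h | h | h | h | h | h | h | h <;> omega
  have hrange : ∀ t a b c, T t a b c → c < n → ∃ i, τ i = t := by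
    intro t a b c h1 h2
    have h3 : -(((n - 13) / 2 : ℕ) : ℤ) ≤ t ∧ t < ((n - 1 : ℕ) : ℤ) - ((n - 13) / 2 : ℕ) := by
      unfold T at h1
      rcases h1 with h | h | h | h | h | h | h | h | h | h | h | h | h | h | h <;> omega
    refine ⟨⟨(t + ((n - 13) / 2 : ℕ)).toNat, by omega⟩, ?_⟩
    rw [hτ]
    simp only
    omega
  have hS : ∀ i, IsIrredundant (pg n) (S3 n (A (τ i)) (B (τ i)) (C (τ i))) ∧
      (S3 n (A (τ i)) (B (τ i)) (C (τ i))).card = IRNum (pg n) := by
    intro i
    have h1 := T_sorted (hT (τ i))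
    exact ⟨(S3_irr h1.1 h1.2 (hC i)).2 (T_wit hn (hT (τ i)) (hC i)), by
      rw [hIR, S3_card h1.1 h1.2 (hC i)]⟩
  let f : Fin (n - 1) → IRSet (pg n) := fun i => ⟨S3 n (A (τ i)) (B (τ i)) (C (τ i)), hS i⟩
  have hadj : ∀ i j, (irGraph (pg n)).Adj (f i) (f j) ↔ τ j = τ i + 1 ∨ τ i = τ j + 1 := by
    intro i j
    constructor
    · intro h
      exact slide_imp (hT (τ i)) (hT (τ j)) (hC i) h
    · rintro (h | h)
      · have h1 := hT (τ j)
        rw [h] at h1
        have h2 := slide_succ (n := n) (hT (τ i)) h1 (hC i) (by rw [← h]; exact hC j)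
        rw [← h] at h2
        exact h2
      · have h1 := hT (τ i)
        rw [h] at h1
        have h2 := slide_succ (n := n) (hT (τ j)) h1 (hC j) (by rw [← h]; exact hC i)
        rw [← h] at h2
        have h3 : (irGraph (pg n)).Adj (f j) (f i) := h2
        exact h3.symm
  have hbij : Function.Bijective f := by
    constructor
    · intro i j hij
      have h1 : S3 n (A (τ i)) (B (τ i)) (C (τ i)) = S3 n (A (τ j)) (B (τ j)) (C (τ j)) :=
        congrArg Subtype.val hij
      have s1 := T_sorted (hT (τ i))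
      have s2 := T_sorted (hT (τ j))
      have c1 := hC i
      have c2 := hC j
      have hmem : ∀ x < n, (x = A (τ i) ∨ x = B (τ i) ∨ x = C (τ i)) ↔
          (x = A (τ j) ∨ x = B (τ j) ∨ x = C (τ j)) := by
        intro x hx
        have h2 : (⟨x, hx⟩ : Fin n) ∈ S3 n (A (τ i)) (B (τ i)) (C (τ i)) ↔
            (⟨x, hx⟩ : Fin n) ∈ S3 n (A (τ j)) (B (τ j)) (C (τ j)) := by rw [h1]
        rwa [mem_S3, mem_S3] at h2
      have e1 := hmem (A (τ i)) (by omega)
      have e2 := hmem (B (τ i)) (by omega)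
      have e3 := hmem (C (τ i)) (by omega)
      have e : A (τ i) = A (τ j) ∧ B (τ i) = B (τ j) ∧ C (τ i) = C (τ j) := by omega
      have h3 := hT (τ i)
      rw [e.1, e.2.1, e.2.2] at h3
      have h4 := T_inj h3 (hT (τ j))
      rw [hτ, hτ] at h4
      exact Fin.ext (by omega)
    · intro D
      obtain ⟨t, a, b, c, h1, h2, h3, h4, h5⟩ := triple_T D.2.1 (D.2.2.trans hIR)
      obtain ⟨i, rfl⟩ := hrange t a b c h1 h4
      refine ⟨i, Subtype.ext ?_⟩
      change S3 n (A (τ i)) (B (τ i)) (C (τ i)) = D.1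
      have e : A (τ i) = a ∧ B (τ i) = b ∧ C (τ i) = c := by
        have h6 := hT (τ i)
        generalize τ i = t at h1 h6
        generalize A t = x at h6 ⊢
        generalize B t = y at h6 ⊢
        generalize C t = z at h6 ⊢
        unfold T at h1 h6
        rcases h1 with h | h | h | h | h | h | h | h | h | h | h | h | h | h | h <;>
          rcases h6 with h' | h' | h' | h' | h' | h' | h' | h' | h' | h' | h' | h' | h' | h' | h' <;>
          omega
      rw [e.1, e.2.1, e.2.2]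
      exact h5.symm
  let e := Equiv.ofBijective f hbij
  refine ⟨(RelIso.symm ⟨e, ?_⟩ : irGraph (pg n) ≃g SimpleGraph.pathGraph (n - 1))⟩
  intro i j
  change (irGraph (pg n)).Adj (f i) (f j) ↔ (SimpleGraph.pathGraph (n - 1)).Adj i j
  rw [hadj, SimpleGraph.pathGraph_adj, hτ, hτ]
  constructor
  · rintro (h | h)
    · exact Or.inl (by omega)
    · exact Or.inr (by omega)
  · rintro (h | h)
    · exact Or.inl (by omega)
    · exact Or.inr (by omega)

end Q107.IRG.Path
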